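import Pool.Agent.R459.Quad
import Pool.Agent.R459.C2

/-!
# The lower bound for the number of Goldbach representations, in all long windows, for all even integers near almost
all values of quadratic polynomials at integers with restricted digits

Definitions used:
* in `Pool.Agent.H560R3.GB`: `g m`: the number of ordered representations of `m` as a sum of two primes; `sing m`: the
  singular series `2 C₂ ∏_{p ∣ m, p > 2} (p - 1) / (p - 2)`, where `C₂ = ∏_{p > 2} (1 - 1 / (p - 1) ^ 2)`;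
* in `Pool.Agent.TH872.GQ`: `S b D k`: the integers below `b ^ k` whose `i`-th digit in base `b` lies in `D i`, for all
  `i < k`; `value κ β c n = c + κ n ^ 2 + β n`.
-/

set_option autoImplicit false

namespace Pool.Agent.Results.MP_dd84fd_nt.QuadraticNeighbourhoods

open Finset Pool.Agent.H560R3.GB Pool.Agent.TH872.GQ

/-- The number of ordered representations of `m` as a sum `p + q` of two primes with `y₁ < p ≤ y₂`. -/
def G (m y₁ y₂ : ℕ) : ℕ := ((Ioc y₁ y₂).filter (fun p => p.Prime ∧ (m - p).Prime)).card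

/-- (1) `g m ≥ 1.3 m / log ^ 2 m`;
(2) for all windows `(y₁, y₂] ⊆ (0, m]` of length at least `m / log ^ A m` the number `G m y₁ y₂` of the
representations `m = p + q` with `y₁ < p ≤ y₂` is at least `1.3 (y₂ - y₁) / log ^ 2 m`, and it is
`sing m * (y₂ - y₁) / log ^ 2 m` up to a relative error of at most `ε`. -/
def Holds (ε : ℝ) (A m : ℕ) : Prop :=
  13 / 10 * (m / Real.log m ^ 2) ≤ g m ∧
  ∀ y₁ y₂ : ℕ, y₁ < y₂ → y₂ ≤ m → (m : ℝ) / Real.log m ^ A ≤ (y₂ : ℝ) - y₁ →
    13 / 10 * (((y₂ : ℝ) - y₁) / Real.log m ^ 2) ≤ G m y₁ y₂ ∧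
    |(G m y₁ y₂ : ℝ) - sing m * (((y₂ : ℝ) - y₁) / Real.log m ^ 2)| ≤
      ε * (sing m * (((y₂ : ℝ) - y₁) / Real.log m ^ 2))

/-- `Holds` for all the even integers `m > 0` at a distance of at most `Q` from `b`. -/
def Near (ε : ℝ) (A Q : ℕ) (b : ℤ) : Prop := ∀ m : ℕ, 0 < m → Even m → |(m : ℤ) - b| ≤ Q → Holds ε A m

lemma G_full (m : ℕ) : G m 0 m = g m := by
  unfold G g
  apply card_bij' (fun p _ => (p, m - p)) (fun q _ => q.1)
  · intro p hp
    rw [mem_filter, mem_Ioc] at hp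
    rw [mem_filter, HasAntidiagonal.mem_antidiagonal]
    exact ⟨by simp only; omega, hp.2⟩
  · intro q hq
    rw [mem_filter, HasAntidiagonal.mem_antidiagonal] at hq
    rw [mem_filter, mem_Ioc]
    obtain ⟨h1, h2, h3⟩ := hq
    have e : m - q.1 = q.2 := by omega
    rw [e]
    exact ⟨⟨h2.pos, by omega⟩, h2, h3⟩
  · intro p _
    rfl
  · intro q hq
    rw [mem_filter, HasAntidiagonal.mem_antidiagonal] at hq
    ext
    · rfl
    · simp only
      omega

lemma holds_of (A : ℕ) (ε : ℝ) (m : ℕ) (hm : 3 ≤ m) (hw : Pool.Agent.W93.PG.WinP (min ε (1 / 200)) A m) :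
    Holds ε A m := by
  have hmr : (3 : ℝ) ≤ m := by exact_mod_cast hm
  have hlog : 1 ≤ Real.log m := by
    rw [Real.le_log_iff_exp_le (by linarith)]
    linarith [Real.exp_one_lt_d9]
  have key : ∀ y₁ y₂ : ℕ, y₁ < y₂ → y₂ ≤ m → (m : ℝ) / Real.log m ^ A ≤ (y₂ : ℝ) - y₁ →
    13 / 10 * (((y₂ : ℝ) - y₁) / Real.log m ^ 2) ≤ G m y₁ y₂ ∧
    |(G m y₁ y₂ : ℝ) - sing m * (((y₂ : ℝ) - y₁) / Real.log m ^ 2)| ≤
      ε * (sing m * (((y₂ : ℝ) - y₁) / Real.log m ^ 2)) := by
    intro y₁ y₂ hy hym hl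
    have h1 : |(G m y₁ y₂ : ℝ) - sing m * ((y₂ : ℝ) - y₁) / Real.log m ^ 2| ≤
      min ε (1 / 200) * (sing m * ((y₂ : ℝ) - y₁) / Real.log m ^ 2) := hw y₁ y₂ hy hym hl
    obtain ⟨Q, hQ⟩ : ∃ Q : ℝ, Q = ((y₂ : ℝ) - y₁) / Real.log m ^ 2 := ⟨_, rfl⟩
    have hyr : (y₁ : ℝ) < y₂ := by exact_mod_cast hy
    have hQ0 : 0 < Q := by
      rw [hQ]
      apply div_pos (by linarith) (by positivity)
    have e1 : sing m * ((y₂ : ℝ) - y₁) / Real.log m ^ 2 = sing m * Q := by rw [hQ]; ring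
    have hs := Pool.Agent.R459.sing_num m
    have hsQ : 327 / 250 * Q ≤ sing m * Q := mul_le_mul_of_nonneg_right hs hQ0.le
    have hsQ0 : 0 ≤ sing m * Q := by linarith [mul_pos (by norm_num : (0 : ℝ) < 327 / 250) hQ0]
    rw [e1] at h1
    rw [← hQ]
    refine ⟨?_, h1.trans (mul_le_mul_of_nonneg_right (min_le_left _ _) hsQ0)⟩
    have h2 := h1.trans (mul_le_mul_of_nonneg_right (min_le_right _ _) hsQ0)
    rw [abs_le] at h2
    linarith [h2.1]
  refine ⟨?_, key⟩
  have h3 := (key 0 m (by omega) le_rfl (by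
    rw [Nat.cast_zero, sub_zero]
    exact div_le_self (by linarith) (one_le_pow₀ hlog))).1
  rw [G_full, Nat.cast_zero, sub_zero] at h3
  exact h3

open Classical in
/-- Let `b ≥ 2`, integers `κ ≠ 0` and `β`, and `B`, `A`, `W`, `U` and `ε > 0` be fixed, and let `k` be large. Let
`D 0, …, D (k - 1)` be arbitrary sets of at least two digits in base `b`, let `S` be the set of the integers below
`b ^ k` whose `i`-th digit lies in `D i` for all `i < k`, and let `c` be an arbitrary integer with `|c| ≤ B b ^ (2 k)`.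
Then all the `n ∈ S`, except for at most `#S / k ^ U` of them, have the following property: for ALL the even integers
`m > 0` at a distance of at most `k ^ W` from `c + κ n ^ 2 + β n`, the number of representations of `m` as a sum of two
primes is at least `1.3 m / log ^ 2 m`; moreover, for all windows `(y₁, y₂] ⊆ (0, m]` with
`y₂ - y₁ ≥ m / log ^ A m` the number of the representations `m = p + q` with `y₁ < p ≤ y₂` is at least
`1.3 (y₂ - y₁) / log ^ 2 m`, and it is as predicted by Hardy and Littlewood up to a relative error of at most `ε`. -/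
theorem result (b B A W U : ℕ) (hb : 2 ≤ b) (κ β : ℤ) (hκ : κ ≠ 0) (ε : ℝ) (hε : 0 < ε) :
    ∃ k₀ : ℕ, ∀ k : ℕ, k₀ ≤ k → ∀ D : ℕ → Finset ℕ, (∀ i < k, D i ⊆ range b ∧ 2 ≤ (D i).card) →
      ∀ c : ℤ, |c| ≤ B * (b : ℤ) ^ (2 * k) →
      (((S b D k).filter (fun n => ¬ Near ε A (k ^ W) (value κ β c n))).card : ℝ) ≤
        (S b D k).card / (k : ℝ) ^ U := by
  obtain ⟨k₀, h⟩ := Pool.Agent.R459.near_quad b B A W U 3 hb κ β hκ (min ε (1 / 200))
    (lt_min hε (by norm_num)) (Holds ε A) (fun m hm _ hw => holds_of A ε m hm hw)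
  refine ⟨k₀, fun k hk D hD c hc => h k hk D hD c hc _ ?_⟩
  intro n hn
  unfold Near at hn
  push Not at hn
  obtain ⟨m, h1, h2, h3, h4⟩ := hn
  exact ⟨m, h1, h2, by push_cast at h3; exact h3, h4⟩

end Pool.Agent.Results.MP_dd84fd_nt.QuadraticNeighbourhoods
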