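import Pool.Agent.R460.GR.Conv

/-!
# The lower bound for the number of Goldbach representations in ALL residue classes, in particular for the
multiples, of the moduli up to `x ^ (7 / 10 - ρ)` which are not divisible by one of few large integers

There is a set `D` of at most `(log x) ^ c` integers, all of them larger than any given power of `log x`, such that
for every modulus `q ≤ x ^ (7 / 10 - ρ)` which is not divisible by a member of `D`, and EVERY residue class `a`
modulo `q` (for instance `a = 0`: the multiples of `q`), all but at most `x / (q (log x)^A)` of the even integers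
`n ≤ x`, `n ≡ a (mod q)`, satisfy the lower bound of the problem with `δ = 1 / 20`: they have at least one
twentieth of the number of representations which Hardy and Littlewood predict.

Definitions used (in `Pool.Agent.H560R3.GB`): `g n`: the number of ordered pairs of primes `(p₁, p₂)` with
`p₁ + p₂ = n`; `HL n`: the prediction `sing n * (n / (log n)²)` of Hardy and Littlewood, where
`sing n = 2 C₂ ∏_{p ∣ n, p > 2} (p - 1) / (p - 2)` and `C₂ = ∏_{p > 2} (1 - 1 / (p - 1) ^ 2)`.

Proof (`R460/GS`, `R460/GR`). Let `G` be `log N` times the indicator function of the integers without prime factors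
up to `N ^ (3 / 10)`. Then `Λ(m) Λ(n) ≥ Λ(m) G(n) + G(m) Λ(n) - G(m) G(n)` up to prime powers, and the mean value
`w` of `G` satisfies `2 w - w ^ 2 > 1 / 20`. The difference of `G` and a sieve model is a bilinear sum with
flexible lengths; so its sum over the characters modulo `q` which are not bad is small in mean square near the
fractions with small denominators, and over all characters elsewhere, if `q ≤ N ^ (7 / 10 - ρ)`. A bad character is
induced by a primitive character for which one of the linear factors of the bilinear sums is large; by the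
large sieve for the tenth powers of the factors there are at most `(log N) ^ c` such primitive characters of
conductors up to `N ^ (3 / 4)`, and their conductors are larger than any power of `log N`. These conductors (divided
by small factors) are the members of `D`.
-/

set_option autoImplicit false

namespace Pool.Agent.Results.MP_dd84fd_nt.AllClassesRegularModuli

open Finset
open Pool.Agent.H560R3.GB (g HL sing)
open Pool.Agent.W93.PG (cnt)

/-- The even integers `n ≡ a (mod q)` with `0 < n ≤ x` for which `g n` is less than one twentieth of the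
prediction `HL n` of Hardy and Littlewood, or less than `(1 / 20) n / (log n)²`. -/
def exceptional (x : ℝ) (q : ℕ) (a : ℤ) : Set ℕ :=
  {n : ℕ | 0 < n ∧ (n : ℝ) ≤ x ∧ 2 ∣ n ∧ (n : ℤ) ≡ a [ZMOD q] ∧
    ¬ ((1 / 20) * HL n ≤ g n ∧ (1 / 20) * ((n : ℝ) / Real.log n ^ 2) ≤ g n)}

theorem cnt_eq (n : ℕ) : cnt n 0 n = g n := by
  unfold cnt g
  refine card_bij (fun p _ => (p, n - p)) ?_ ?_ ?_
  · intro p hp
    rw [mem_filter, mem_Ioc] at hp
    rw [mem_filter, HasAntidiagonal.mem_antidiagonal]
    exact ⟨by simp only; omega, hp.2⟩
  · intro p _ p' _ h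
    exact congrArg Prod.fst h
  · rintro ⟨a, b⟩ h
    rw [mem_filter, HasAntidiagonal.mem_antidiagonal] at h
    obtain ⟨h1, h2, h3⟩ := h
    simp only at h1 h2 h3
    have ha := h2.pos
    refine ⟨a, ?_, ?_⟩
    · rw [mem_filter, mem_Ioc]
      refine ⟨⟨ha, by omega⟩, h2, ?_⟩
      have : n - a = b := by omega
      rw [this]
      exact h3
    · have : n - a = b := by omega
      simp [this]

/-- For all `ρ > 0` and `A` there is `c` such that for all `B` and all sufficiently large real `x` there is a finite
set `D` of at most `(log x) ^ c` integers, all of them larger than `(log x) ^ B`, such that for every integer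
`1 ≤ q ≤ x ^ (7 / 10 - ρ)` which is not divisible by a member of `D` and for EVERY integer `a`, all but at most
`x / (q (log x)^A)` of the even integers `0 < n ≤ x`, `n ≡ a (mod q)`, satisfy `g n ≥ (1 / 20) HL n` and
`g n ≥ (1 / 20) n / (log n)²`. -/
theorem result (ρ : ℝ) (hρ : 0 < ρ) (A : ℕ) :
    ∃ c : ℕ, ∀ B : ℕ, ∃ x₀ : ℝ, ∀ x : ℝ, x₀ ≤ x → ∃ D : Finset ℕ, (D.card : ℝ) ≤ Real.log x ^ c ∧
      (∀ d ∈ D, Real.log x ^ B < (d : ℝ)) ∧
      ∀ q : ℕ, 1 ≤ q → (q : ℝ) ≤ x ^ (7 / 10 - ρ) → (∀ d ∈ D, ¬ d ∣ q) → ∀ a : ℤ,
        (exceptional x q a).Finite ∧ ((exceptional x q a).ncard : ℝ) ≤ x / (q * Real.log x ^ A) := by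
  have h := Pool.Agent.R460.GR.class_few_reg
    (fun n => (1 / 20) * HL n ≤ g n ∧ (1 / 20) * ((n : ℝ) / Real.log n ^ 2) ≤ g n) 0
    ⟨1, fun n hn _ hw => ?_⟩ ρ hρ A
  · exact h
  · have h1 := hw 0 n (by omega) le_rfl (by simp)
    rw [cnt_eq] at h1
    have h2 := Pool.Agent.R460.GS.one_le_sing n
    have h3 : (0 : ℝ) ≤ (n : ℝ) / Real.log n ^ 2 := by positivity
    have h4 : (1 / 20) * HL n ≤ g n := by
      refine le_trans (le_of_eq ?_) h1
      unfold Pool.Agent.H560R3.GB.HL
      push_cast
      ring
    refine ⟨h4, le_trans ?_ h4⟩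
    unfold Pool.Agent.H560R3.GB.HL
    nlinarith

end Pool.Agent.Results.MP_dd84fd_nt.AllClassesRegularModuli
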