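import Pool.Agent.R460.GH.Conv

/-!
# Goldbach representations in the residue classes of EVERY modulus `q ≤ x ^ (2 / 3 - ρ)`: the asymptotic formula

For every modulus `q ≤ x ^ (2 / 3 - ρ)`, without any exceptional moduli, and every residue class `a` modulo `q`
with `gcd(a, q) ≤ (log x)^T`, all but at most `x / (q (log x)^A)` of the even integers `n ≤ x`, `n ≡ a (mod q)`,
have the number of representations as a sum of two primes which Hardy and Littlewood predict, up to the
factor `1 ± ε`, also if one of the primes is restricted to an arbitrary window of a length of at least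
`n / (log n)^W`.

Definitions used (in `Pool.Agent.H560R3.GB`): `g n` is the number of ordered pairs of primes with sum `n`;
`sing n = 2 C₂ ∏_{p ∣ n, p > 2} (p - 1) / (p - 2)`, the singular series, where
`C₂ = ∏_{p > 2} (1 - 1 / (p - 1) ^ 2)` is the twin prime constant; `HL n = sing n * n / (log n)²`.

Proof (`R460/GH`). Let `Z = N ^ (1 / 3 + κ)` and let `r(n) = 1` if `n` has no prime factor up to `Z`, and `0` otherwise.
Since the numbers with no prime factor up to `Z` are primes or products of two primes, the indicator function of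
the primes is `r(n) - (1 / 2) ∑_{p ∣ n, Z < p ≤ N / Z} r(n / p)`, up to few `n`. Both terms are sums of type I of the
level `N ^ (2 / 3)` plus bilinear sums in which one variable is between `N ^ κ` and `N ^ (1 / 3 + κ)`. For
`q ≤ N ^ (2 / 3 - ρ)` the mean square of the former over ALL characters modulo `q`, or equivalently over all
fractions `j / q`, is estimated in the whole range by counting the solutions of `|m j / q + m η - a / r|` small
(`GH/Ka - Kd`); the latter are small in mean square over all characters but few bad ones near the fractions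
with small denominators, and over all characters elsewhere. So the same is true of the primes. The bad
characters of a large conductor contribute sums over shifted classes, which are small if `gcd(a, q)` is small:
no zero-free region for the characters modulo `q` is needed, and there are no exceptional moduli.
-/

set_option autoImplicit false

namespace Pool.Agent.Results.MP_dd84fd_nt.AsymptoticEveryModulus

open Finset
open Pool.Agent.H560R3.GB (g HL sing)

/-- The number of primes `p` with `y₁ < p ≤ y₂` such that `n - p` is a prime. -/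
def count (n y₁ y₂ : ℕ) : ℕ := ((Ioc y₁ y₂).filter (fun p => p.Prime ∧ (n - p).Prime)).card

/-- (1) The formula of Hardy and Littlewood for `g n` holds with a relative error of at most `ε`; (2) in every
window `(y₁, y₂] ⊆ (0, n]` of a length of at least `n / (log n)^W` the number of primes `p` such that `n - p` is a
prime is `sing n * (y₂ - y₁) / (log n)²` with a relative error of at most `ε`. -/
def Formula (ε : ℝ) (W n : ℕ) : Prop :=
  |(g n : ℝ) - HL n| ≤ ε * HL n ∧
  ∀ y₁ y₂ : ℕ, y₁ < y₂ → y₂ ≤ n → (n : ℝ) / Real.log n ^ W ≤ (y₂ : ℝ) - y₁ →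
    |(count n y₁ y₂ : ℝ) - sing n * ((y₂ : ℝ) - y₁) / Real.log n ^ 2| ≤
      ε * (sing n * ((y₂ : ℝ) - y₁) / Real.log n ^ 2)

/-- The even integers `0 < n ≤ x` with `n ≡ a (mod q)` for which `Formula ε W n` is false. -/
def exceptional (ε : ℝ) (W : ℕ) (x : ℝ) (q : ℕ) (a : ℤ) : Set ℕ :=
  {n : ℕ | 0 < n ∧ (n : ℝ) ≤ x ∧ 2 ∣ n ∧ (n : ℤ) ≡ a [ZMOD q] ∧ ¬ Formula ε W n}

theorem cnt_eq (n : ℕ) : Pool.Agent.W93.PG.cnt n 0 n = g n := by
  unfold Pool.Agent.W93.PG.cnt g
  refine card_bij (fun p _ => (p, n - p)) ?_ ?_ ?_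
  · intro p hp
    rw [mem_filter, mem_Ioc] at hp
    rw [mem_filter, HasAntidiagonal.mem_antidiagonal]
    exact ⟨by simp only; omega, hp.2⟩
  · intro p _ p' _ h
    exact congrArg Prod.fst h
  · rintro ⟨a, b⟩ h
    rw [mem_filter, HasAntidiagonal.mem_antidiagonal] at h
    obtain ⟨h1, h2, h3⟩ := h
    simp only at h1 h2 h3
    have ha := h2.pos
    refine ⟨a, ?_, ?_⟩
    · rw [mem_filter, mem_Ioc]
      refine ⟨⟨ha, by omega⟩, h2, ?_⟩
      have : n - a = b := by omega
      rw [this]
      exact h3
    · have : n - a = b := by omega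
      simp [this]

theorem formula_of (ε : ℝ) (W : ℕ) : ∃ n₀ : ℕ, ∀ n : ℕ, n₀ ≤ n → 2 ∣ n →
    Pool.Agent.W93.PG.WinP ε W n → Formula ε W n := by
  refine ⟨3, fun n hn _ hw => ⟨?_, hw⟩⟩
  have hn3 : (3 : ℝ) ≤ n := by exact_mod_cast hn
  have hL1 : 1 ≤ Real.log n := by
    rw [Real.le_log_iff_exp_le (by linarith)]
    have := Real.exp_one_lt_d9
    linarith
  have h1 := hw 0 n (by omega) le_rfl (by
    rw [Nat.cast_zero, sub_zero]
    exact div_le_self (Nat.cast_nonneg _) (one_le_pow₀ hL1))
  rw [cnt_eq] at h1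
  have e : sing n * ((n : ℝ) - ((0 : ℕ) : ℝ)) / Real.log n ^ 2 = HL n := by
    unfold Pool.Agent.H560R3.GB.HL
    push_cast
    ring
  rw [e] at h1
  exact h1

/-- For all `ε, ρ > 0`, `A`, `W` and `T` and all sufficiently large real `x`: for EVERY integer
`1 ≤ q ≤ x ^ (2 / 3 - ρ)` and every integer `a` with `gcd(a, q) ≤ (log x)^T`, all but at most
`x / (q (log x)^A)` of the even integers `0 < n ≤ x`, `n ≡ a (mod q)`, satisfy `Formula ε W n`. -/
theorem result (ε ρ : ℝ) (hε : 0 < ε) (hρ : 0 < ρ) (A W T : ℕ) :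
    ∃ x₀ : ℝ, ∀ x : ℝ, x₀ ≤ x → ∀ q : ℕ, 1 ≤ q → (q : ℝ) ≤ x ^ (2 / 3 - ρ) →
      ∀ a : ℤ, (Int.gcd a q : ℝ) ≤ Real.log x ^ T →
        (exceptional ε W x q a).Finite ∧ ((exceptional ε W x q a).ncard : ℝ) ≤ x / (q * Real.log x ^ A) :=
  Pool.Agent.R460.GH.class_asymp (Formula ε W) ε hε W (formula_of ε W) ρ hρ A T

end Pool.Agent.Results.MP_dd84fd_nt.AsymptoticEveryModulus
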