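import Pool.Agent.R460.GS.Conv

/-!
# The lower bound for the number of Goldbach representations in the residue classes of EVERY modulus `q ≤ x ^ (7 / 10 - ρ)`

For every modulus `q ≤ x ^ (7 / 10 - ρ)`, without any exceptional moduli, and every residue class `a` modulo
`q` with `gcd(a, q) ≤ (log x)^T`, all but at most `x / (q (log x)^A)` of the even integers `n ≤ x`,
`n ≡ a (mod q)`, satisfy the lower bound of the problem with `δ = 1 / 20`: they have at least one twentieth
of the number of representations which Hardy and Littlewood predict.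

Definitions used (in `Pool.Agent.H560R3.GB`): `g n`: the number of ordered pairs of primes `(p₁, p₂)` with
`p₁ + p₂ = n`; `HL n`: the prediction `sing n * (n / (log n)²)` of Hardy and Littlewood, where
`sing n = 2 C₂ ∏_{p ∣ n, p > 2} (p - 1) / (p - 2)` and `C₂ = ∏_{p > 2} (1 - 1 / (p - 1) ^ 2)`.

Proof (`R460/GS`). Let `G` be `log N` times the indicator function of the integers without prime factors up to
`N ^ (3 / 10)`. Then `Λ(m) Λ(n) ≥ Λ(m) G(n) + G(m) Λ(n) - G(m) G(n)` up to prime powers, and the mean value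
`w` of `G` satisfies `2 w - w ^ 2 > 1 / 20`. The difference of `G` and a sieve model is a bilinear sum with
flexible lengths; so its sum over all but few characters modulo `q` is small in mean square near the
fractions with small denominators, and over all characters elsewhere, if `q ≤ N ^ (7 / 10 - ρ)`; for `Λ` an
upper bound of the right order is enough. The bad characters of a large conductor contribute sums over
the shifted classes `a - l`, which are small if `gcd(a, q)` is small: no zero-free region for the characters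
modulo `q` is needed, and there are no exceptional moduli.
-/

set_option autoImplicit false

namespace Pool.Agent.Results.MP_dd84fd_nt.EveryModulusSevenTenths

open Finset
open Pool.Agent.H560R3.GB (g HL sing)
open Pool.Agent.W93.PG (cnt)

/-- The even integers `n ≡ a (mod q)` with `0 < n ≤ x` for which `g n` is less than one twentieth of the
prediction `HL n` of Hardy and Littlewood, or less than `(1 / 20) n / (log n)²`. -/
def exceptional (x : ℝ) (q : ℕ) (a : ℤ) : Set ℕ :=
  {n : ℕ | 0 < n ∧ (n : ℝ) ≤ x ∧ 2 ∣ n ∧ (n : ℤ) ≡ a [ZMOD q] ∧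
    ¬ ((1 / 20) * HL n ≤ g n ∧ (1 / 20) * ((n : ℝ) / Real.log n ^ 2) ≤ g n)}

theorem cnt_eq (n : ℕ) : cnt n 0 n = g n := by
  unfold cnt g
  refine card_bij (fun p _ => (p, n - p)) ?_ ?_ ?_
  · intro p hp
    rw [mem_filter, mem_Ioc] at hp
    rw [mem_filter, HasAntidiagonal.mem_antidiagonal]
    exact ⟨by simp only; omega, hp.2⟩
  · intro p _ p' _ h
    exact congrArg Prod.fst h
  · rintro ⟨a, b⟩ h
    rw [mem_filter, HasAntidiagonal.mem_antidiagonal] at h
    obtain ⟨h1, h2, h3⟩ := h
    simp only at h1 h2 h3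
    have ha := h2.pos
    refine ⟨a, ?_, ?_⟩
    · rw [mem_filter, mem_Ioc]
      refine ⟨⟨ha, by omega⟩, h2, ?_⟩
      have : n - a = b := by omega
      rw [this]
      exact h3
    · have : n - a = b := by omega
      simp [this]

/-- For all `ρ > 0`, `A` and `T` and all sufficiently large real `x`: for EVERY integer
`1 ≤ q ≤ x ^ (7 / 10 - ρ)` and every integer `a` with `gcd(a, q) ≤ (log x)^T`, all but at most
`x / (q (log x)^A)` of the even integers `0 < n ≤ x`, `n ≡ a (mod q)`, satisfy `g n ≥ (1 / 20) HL n` and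
`g n ≥ (1 / 20) n / (log n)²`. -/
theorem result (ρ : ℝ) (hρ : 0 < ρ) (A T : ℕ) :
    ∃ x₀ : ℝ, ∀ x : ℝ, x₀ ≤ x → ∀ q : ℕ, 1 ≤ q → (q : ℝ) ≤ x ^ (7 / 10 - ρ) →
      ∀ a : ℤ, (Int.gcd a q : ℝ) ≤ Real.log x ^ T →
        (exceptional x q a).Finite ∧ ((exceptional x q a).ncard : ℝ) ≤ x / (q * Real.log x ^ A) := by
  have h := Pool.Agent.R460.GS.class_few
    (fun n => (1 / 20) * HL n ≤ g n ∧ (1 / 20) * ((n : ℝ) / Real.log n ^ 2) ≤ g n) 0
    ⟨1, fun n hn _ hw => ?_⟩ ρ hρ A T
  · exact h
  · have h1 := hw 0 n (by omega) le_rfl (by simp)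
    rw [cnt_eq] at h1
    have h2 := Pool.Agent.R460.GS.one_le_sing n
    have h3 : (0 : ℝ) ≤ (n : ℝ) / Real.log n ^ 2 := by positivity
    have h4 : (1 / 20) * HL n ≤ g n := by
      refine le_trans (le_of_eq ?_) h1
      unfold Pool.Agent.H560R3.GB.HL
      push_cast
      ring
    refine ⟨h4, le_trans ?_ h4⟩
    unfold Pool.Agent.H560R3.GB.HL
    nlinarith

end Pool.Agent.Results.MP_dd84fd_nt.EveryModulusSevenTenths
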